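import Pool.Agent.H.MP_2bf34e_al.C

namespace Pool.Agent.Results.MP_2bf34e_al.Limit

open Pool.Agent.H.MP_2bf34e_al

theorem result (K : Type) [Field K] [Infinite K] :
    (Conj K ↔ ringChar K = 0) ∧
      ∀ (n r : ℕ) (d : Fin r → ℕ), ∃ f : Fin r → ExteriorAlgebra K (Fin n → K), Gen d f := by
  refine ⟨⟨fun h => ?_, fun h => ?_⟩, fun n r d => exists_gen d⟩
  · rcases CharP.char_is_prime_or_zero K (ringChar K) with c | c
    · have : Fact (ringChar K).Prime := ⟨c⟩
      exact absurd h (neg (ringChar K))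
    · exact c
  · have : CharP K 0 := h ▸ ringChar.charP K
    have := CharP.charP_to_charZero K
    exact pos

end Pool.Agent.Results.MP_2bf34e_al.Limit
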